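import Pool.Agent.J6H27.TT.Final

/-!
# Tally sets that are hard for NP under truth-table reductions with algebraic evaluators

A truth-table reduction asks polynomially many queries at once. Here there is no bound on the number
of queries, and the answer is computed from the answers to the queries by a Boolean combination of
`k` systems of polynomial equations of degree at most `d`, modulo a prime `p` or over the integers
(`p = 0`), with the truth values of the queries as unknowns. This includes bounded truth-table
reductions, conjunctive and disjunctive reductions, parity and mod-`p` truth-table reductions,
bounded-width CNFs and DNFs, and exact counting of positive answers.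
-/

namespace Pool.Agent.Results.MP_634427_lc.AlgebraicTallyHard

open Pool.Agent.NPC Pool.Agent.J6H27.KS Pool.Agent.J6H27.TT

/-- Let `p` be `0` or a prime and let `d` and `k` be numbers. Then `P = NP` if and only if some
tally set `T` is hard for `NP` in the sense that some set `A` that is `NP`-hard under polynomial-time
many-one reductions reduces to `T` by a polynomial-time truth-table reduction whose evaluator is a
Boolean combination of `k` systems of polynomial equations of degree at most `d` modulo `p` (over
`ℤ` if `p = 0`) in the truth values of the queries. -/
theorem result (p : ℕ) (hp : p = 0 ∨ p.Prime) (d k : ℕ) :
    PEqNP ↔ ∃ T : Set (List Bool), Tally T ∧ ∃ A : Set (List Bool), NPHard A ∧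
      AlgReduces p d k A T := by
  constructor
  · exact exists_tally
  · rintro ⟨T, hT, A, hA, h⟩ L
    exact ⟨fun h => h.inNP, inP_of_tally hp hT hA h L⟩

end Pool.Agent.Results.MP_634427_lc.AlgebraicTallyHard
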