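import Pool.Agent.J6H49.IP.Main

/-!
# Sets hard for `NP` have exponential density, relative to nearly collapsed oracles

If `P = PSPACE` (or only `P = NP`) then every set is hard for `NP` under polynomial-time Turing
reductions, and this relativizes. We show that for relativizing proofs this assumption cannot be
weakened, in a strong form: for an arbitrarily slowly growing unbounded function `α` there are
oracles relative to which polynomial space is contained in deterministic time `n ^ O(α n)`, likewise
for exponential and double exponential space, and nevertheless every set which is hard for `NP`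
under polynomial-time Turing reductions is not only not sparse, its density is at least
`2 ^ (n ^ ε)` infinitely often, for some `ε > 0`. The same is true for co-nondeterministic Turing
reductions.
-/

set_option autoImplicit false

namespace Pool.Agent.Results.MP_634427_lc.NearCollapseHard

open MeasureTheory Pool.Agent.NPC Pool.Agent.H628R3.RO Pool.Agent.J6H49.OP Pool.Agent.J6H49.IP
open Pool.Agent.TH678.GC (join)

/-- Let `α : ℕ → ℕ` be nondecreasing and unbounded and let `C` be any oracle. There is a map `O` on
the oracles such that `O A` contains `A` and `C` and is nearly collapsed with the function `α`, for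
every `A`, and for a random oracle `A` (fair coin tosses), with probability one: every set `T` which
is hard for `NP` under polynomial-time Turing reductions, relative to `O A`, has for some `k` more
than `2 ^ n` elements of length at most `n ^ k`, for infinitely many `n`. It is enough that `T` is
hard for `NP` under co-nondeterministic polynomial-time Turing reductions. -/
theorem result (α : ℕ → ℕ) (hα : Monotone α) (hα' : Filter.Tendsto α Filter.atTop Filter.atTop)
    (C : Oracle) : ∃ O : Oracle → Oracle,
      (∀ A, NearlyCollapsed α (O A) ∧ Contains (O A) A ∧ Contains (O A) C) ∧
      ∀ᵐ A ∂randomOracle, ∀ T : Oracle,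
        ((∀ L, IsNP (O A) L → IsP (join (O A) T) L) ∨
          (∀ L, IsNP (O A) L → IsCoNP (join (O A) T) L)) →
        ∃ k : ℕ, ∃ᶠ n : ℕ in Filter.atTop,
          2 ^ n < ({x : List Bool | x.length ≤ n ^ k ∧ T x = true}).ncard := by
  obtain ⟨O, h1, h2⟩ := Pool.Agent.J6H49.IP.main α hα hα' C
  refine ⟨O, h1, ?_⟩
  filter_upwards [h2] with A hA T hT
  obtain ⟨L, hL1, hL2⟩ := hA
  by_contra hcon
  push Not at hcon
  refine hL2 T (fun k => ?_) (IsIP.isIPio ?_)
  · exact hcon k
  · rcases hT with hT | hT
    · exact (hT L hL1).compl.isIP
    · exact isIP_of_isNP (hT L hL1)

end Pool.Agent.Results.MP_634427_lc.NearCollapseHard
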