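import Pool.Agent.J6H49.SY.Fin3
import Pool.Agent.J6H8.SY.Rhs
import Pool.Agent.J6H28.S2.Eng
import Pool.Agent.J6H76.S2.Inst
import Pool.Agent.J6H78.S2.Exp
import Pool.Agent.J6H81.S2.Lin
import Pool.Agent.J6H82.S2.Sym
import Pool.Agent.J6H93.S2.Up
import Pool.Agent.J6H97.S2.Gap

/-!
# Circuits for 3-SAT that are symmetric under exchanging variables in `r` pairs

The hypothesis of the question, that some sparse set is Turing-hard for NP, gives circuits of
polynomial size for 3-SAT. We consider circuits for 3-SAT that respect a small part of the symmetries
of the formulas: the group `(ℤ/2) ^ r` that is generated by the exchanges of the two variables in `r`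
disjoint pairs; there may be any number `m` of further variables. The gates may compute arbitrary
functions, with values in any set, of the multiset of the labelled values on their wires.

*Lower bound.* For every `ε > 0` there is a `K` such that for `r ≥ K` the following holds for every
symmetric circuit with fewer than `2 ^ (r / K)` gates: there are two formulas `x` and `y` with three
different variables in every clause and with the same number of clauses, such that `x` is satisfiable,
no assignment satisfies more than `7 / 8 + ε` of the clauses of `y`, and the circuit has the same
output for `x` and `y`. So symmetric circuits that decide 3-SAT, or that only distinguish satisfiable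
formulas from those in which at most `7 / 8 + ε` of the clauses can be satisfied, have at least
`2 ^ (r / K)` gates. (A random assignment satisfies `7 / 8` of the clauses.)

*Upper bound.* The order of the group is `2 ^ r`, and every circuit for 3-SAT with `s` gates gives a
symmetric one with `2 ^ r * s + 1` gates.

So if `r = O (log n)` then symmetric circuits of polynomial size for 3-SAT exist if and only if there
are circuits of polynomial size for 3-SAT, and if `r / log n` is unbounded then there are no symmetric
circuits of polynomial size.

*Proof of the lower bound.* The formulas express systems of linear equations modulo two in unknowns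
`z i`, three unknowns in each equation; the value of `z i` is given by the first variable of the pair
`i`, and its negation by the second one; the exchange of the two variables changes the right sides of
all equations with `z i`. The exchanges that fix a gate of a symmetric circuit with `s` gates form a
subgroup of index at most `s` of the group, i.e. they are given by at most `log s` linear equations
modulo two. The system is chosen at random, after the circuit: then none of the at most `s ^ 4` linear
combinations of these equations, for two gates, is the sum of between `t / 2` and `t` rows of the
system, where `t` is proportional to `r`. Linear algebra shows, by induction on the gates, that the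
values at a gate agree for two formulas with the same system whose right sides have the same parities
on all sets of at most `t` equations whose sum is a linear combination of the equations of the
gate. -/

set_option autoImplicit false

namespace Pool.Agent.Results.MP_634427_lc.SymmetricCircuits

open Pool.Agent.Y600.Circ (Circuit)
open Pool.Agent.J6H49.SY.Z2 (Clause Sat Symmetric Decides numClauses numTrue Vr)

/-- **Circuits for 3-SAT that are symmetric under exchanging variables in `r` pairs.** -/
theorem result :
    (∀ ε : ℝ, 0 < ε → ∃ K : ℕ, 0 < K ∧ ∀ r m : ℕ, K ≤ r →
      ∀ (D L : Type) (C : Circuit (Clause (Fin r) m) D L), Symmetric C → C.size < 2 ^ (r / K) →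
        ∃ x y : Clause (Fin r) m → Bool,
          (∀ c, x c = true ∨ y c = true → Function.Injective fun k => (c k).1) ∧
          Sat x ∧ numClauses x = numClauses y ∧ 0 < numClauses y ∧
          (∀ a : Vr (Fin r) m → Bool, (numTrue y a : ℝ) ≤ (7 / 8 + ε) * numClauses y) ∧
          C.output x = C.output y) ∧
    ∀ (r m : ℕ) (L : Type) (C : Circuit (Clause (Fin r) m) Bool L), Decides C {true} →
      ∃ C' : Circuit (Clause (Fin r) m) Bool (Option L),
        Symmetric C' ∧ Decides C' {true} ∧ C'.size ≤ 2 ^ r * C.size + 1 :=
  ⟨J6H49.SY.Z2.main3 J6H82.S2.main J6H28.S2.Eng.main J6H81.S2.Lin.main J6H76.S2.main
    J6H78.S2Exp.main J6H8.SY.Rhs.main J6H97.S2Gap.main, J6H93.S2.Up.main⟩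

end Pool.Agent.Results.MP_634427_lc.SymmetricCircuits
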