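import Pool.Agent.J6H49.KT.Main

/-!
# Tally Turing-hard sets for `NP` and `PSPACE`: the possible densities

Buhrman and Hermo showed that for every unbounded `f` there is an oracle relative to which `P ≠ NP`
although `NP` has a Turing-hard tally set of density `f`. We show that the density is an
invariant of the world which can be prescribed: for every unbounded nondecreasing `f` with `f n ≤ n`
there is an oracle relative to which even `PSPACE` has a Turing-hard tally set with at most `f n`
elements of length at most `n`, while no tally set of lower order, in the sense that it
has `o (f n)` elements of length at most `n ^ c`, for all `c`, is Turing-hard for `NP`. Moreover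
`PSPACE = NP = UP ∩ coUP` relative to the oracle, and polynomial space is contained in time
`n ^ O(α n)` for an arbitrarily slowly growing unbounded function `α`.
-/

set_option autoImplicit false

namespace Pool.Agent.Results.MP_634427_lc.TallyDensityThreshold

open Filter Pool.Agent.NPC Pool.Agent.H628R3.RO Pool.Agent.J6H49.OP Pool.Agent.J6H49.IP
open Pool.Agent.H620R2.Gauge (IsPSPACE)
open Pool.Agent.TH678.GC (join)
open Pool.Agent.J6H49.KW (tally)

/-- Let `α` and `f` be nondecreasing and unbounded, `f n ≤ n`, and let `C` be any oracle. There are an
oracle `O` which contains `C` and a tally set `T` such that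

* `O` is nearly collapsed with the function `α`,
* relative to `O`, every language in polynomial space is in `UP` and in `coUP`, and it is in `P` if
  `T` is added to the oracle (`T` is Turing-hard for `PSPACE`),
* `T` has at most `f n` elements of length at most `n`,
* if `U` is a tally set which is Turing-hard for `UP ∩ coUP`, relative to `O`, then there is `c` such
  that `f n` is at most `c` times the number of the elements of `U` of length less than `n ^ c`, for
  infinitely many `n`. -/
theorem result (α f : ℕ → ℕ) (hα : Monotone α) (hα' : Tendsto α atTop atTop)
    (hf : Monotone f) (hf' : Tendsto f atTop atTop) (hfn : ∀ n, f n ≤ n) (C : Oracle) :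
    ∃ (O : Oracle) (T : ℕ → Bool), NearlyCollapsed α O ∧ Contains O C ∧
      (∀ L, IsPSPACE O L → IsUP O L ∧ IsUP O Lᶜ ∧ IsP (join O (tally T)) L) ∧
      (∀ n, ((Finset.range (n + 1)).filter fun m => T m = true).card ≤ f n) ∧
      ∀ U : ℕ → Bool, (∀ L, IsUP O L → IsUP O Lᶜ → IsP (join O (tally U)) L) →
        ∃ c, ∃ᶠ n in atTop,
          f n ≤ c * ((Finset.range (n ^ c)).filter fun m => U m = true).card :=
  Pool.Agent.J6H49.KT.main hα hα' hf hf' hfn C

end Pool.Agent.Results.MP_634427_lc.TallyDensityThreshold
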